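import Pool.Agent.R221.Cyc.Path

set_option autoImplicit false

open Finset

namespace Pool.Agent.R221.Cyc

/-- The periodic Green's function `G(x, y) = |x - y|²/2 - |x - y|/2 + 1/12`. -/
noncomputable def green (x y : ℝ) : ℝ := |x - y| ^ 2 / 2 - |x - y| / 2 + 1 / 12

/-- The centres: `x_0 = 0` and `x_k = x_{k-1} + (ω_{i_{k-1}} + ω_{i_k}) / (2n)`. -/
noncomputable def centre (n : ℕ) (ω : Fin 3 → ℝ) (i : ℕ → Fin 3) : ℕ → ℝ
  | 0 => 0
  | k + 1 => centre n ω i k + (ω (i k) + ω (i (k + 1))) / (2 * n)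

/-- An arrangement `(i_1, …, i_{3n})`, with `i_0 = i_{3n}`, in which each type occurs `n` times.
(The values of `i` beyond `3n` are not used.) -/
def IsArrangement (n : ℕ) (i : ℕ → Fin 3) : Prop :=
  i 0 = i (3 * n) ∧ ∀ t : Fin 3, ((Finset.Icc 1 (3 * n)).filter fun k => i k = t).card = n

/-- The energy of an arrangement. -/
noncomputable def energy (n : ℕ) (ω : Fin 3 → ℝ) (f : Matrix (Fin 3) (Fin 3) ℝ)
    (i : ℕ → Fin 3) : ℝ :=
  (1 / 2) * ∑ k ∈ Finset.Icc 1 (3 * n), ∑ m ∈ Finset.Icc 1 (3 * n),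
    f (i k) (i m) * green (centre n ω i k) (centre n ω i m)

/-- Admissible matrices: (symmetric) positive semi-definite, with `f (1,1,1)ᵀ = 0`. -/
def IsAdmissible (f : Matrix (Fin 3) (Fin 3) ℝ) : Prop :=
  f.PosSemidef ∧ f.mulVec (fun _ => 1) = 0

/-- The cyclic arrangement `ABCABC…`: `i_k ≡ k` mod `3` (the types `1, 2, 3` being `0, 1, 2` in
`Fin 3`). -/
def cyclic (k : ℕ) : Fin 3 := ⟨(k + 2) % 3, Nat.mod_lt _ (by norm_num)⟩

section general

variable (x u : ℕ → ℝ)

/-- partial sums of the charges `u 1, u 2, …` -/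
def HH (k : ℕ) : ℝ := ∑ j ∈ range k, u (j + 1)

lemma HH_succ (k : ℕ) : HH u (k + 1) = HH u k + u (k + 1) := by
  simp [HH, Finset.sum_range_succ]

lemma abel (N : ℕ) : ∑ j ∈ range N, (x (j + 1) - x j) * HH u j =
    ∑ m ∈ range N, u (m + 1) * (x N - x (m + 1)) := by
  induction N with
  | zero => simp
  | succ N ih =>
    rw [Finset.sum_range_succ, ih, Finset.sum_range_succ, sub_self, mul_zero, add_zero]
    rw [HH, Finset.mul_sum, ← Finset.sum_add_distrib]
    exact Finset.sum_congr rfl fun m _ => by ring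

lemma abs_sum (hx : Monotone x) (N : ℕ) :
    ∑ k ∈ range N, ∑ m ∈ range N, u (k + 1) * u (m + 1) * |x (k + 1) - x (m + 1)| =
      2 * ∑ j ∈ range N, (x (j + 1) - x j) * HH u j * (HH u N - HH u j) := by
  induction N with
  | zero => simp
  | succ N ih =>
    have h1 : ∑ k ∈ range (N + 1), ∑ m ∈ range (N + 1),
        u (k + 1) * u (m + 1) * |x (k + 1) - x (m + 1)| =
        ∑ k ∈ range N, ∑ m ∈ range N, u (k + 1) * u (m + 1) * |x (k + 1) - x (m + 1)| +
        2 * (u (N + 1) * ∑ m ∈ range N, u (m + 1) * (x (N + 1) - x (m + 1))) := by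
      rw [Finset.sum_range_succ]
      simp_rw [Finset.sum_range_succ _ N]
      rw [Finset.sum_add_distrib, sub_self, abs_zero, mul_zero, add_zero, add_assoc, two_mul]
      congr 1
      rw [Finset.mul_sum]
      congr 1
      · refine Finset.sum_congr rfl fun m hm => ?_
        rw [Finset.mem_range] at hm
        rw [abs_sub_comm, abs_of_nonneg (sub_nonneg.2 (hx (by omega)))]
        ring
      · refine Finset.sum_congr rfl fun m hm => ?_
        rw [Finset.mem_range] at hm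
        rw [abs_of_nonneg (sub_nonneg.2 (hx (by omega)))]
        ring
    have h2 := abel x u (N + 1)
    rw [Finset.sum_range_succ (fun m => u (m + 1) * (x (N + 1) - x (m + 1))), sub_self, mul_zero,
      add_zero] at h2
    rw [h1, ih, ← h2, Finset.sum_range_succ, Finset.sum_range_succ, HH_succ, mul_add, mul_add,
      Finset.mul_sum, Finset.mul_sum, Finset.mul_sum]
    have h3 : ∑ j ∈ range N, (x (j + 1) - x j) * HH u j * (HH u N + u (N + 1) - HH u j) =
        ∑ j ∈ range N, ((x (j + 1) - x j) * HH u j * (HH u N - HH u j)) +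
        ∑ j ∈ range N, (u (N + 1) * ((x (j + 1) - x j) * HH u j)) := by
      rw [← Finset.sum_add_distrib]
      exact Finset.sum_congr rfl fun j _ => by ring
    rw [h3, ← Finset.mul_sum, ← Finset.mul_sum, ← Finset.mul_sum]
    ring

lemma sq_sum (N : ℕ) (h0 : HH u N = 0) :
    ∑ k ∈ range N, ∑ m ∈ range N, u (k + 1) * u (m + 1) * |x (k + 1) - x (m + 1)| ^ 2 =
      -2 * (∑ j ∈ range N, (x (j + 1) - x j) * HH u j) ^ 2 := by
  have h1 : ∑ j ∈ range N, (x (j + 1) - x j) * HH u j = - ∑ m ∈ range N, u (m + 1) * x (m + 1) := by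
    rw [abel]
    have : ∀ m, u (m + 1) * (x N - x (m + 1)) = u (m + 1) * x N - u (m + 1) * x (m + 1) :=
      fun m => by ring
    simp_rw [this]
    rw [Finset.sum_sub_distrib, ← Finset.sum_mul]
    change HH u N * x N - _ = _
    rw [h0]
    ring
  rw [h1]
  set S := ∑ m ∈ range N, u (m + 1) * x (m + 1) with hS
  have h2 : ∀ k m, u (k + 1) * u (m + 1) * |x (k + 1) - x (m + 1)| ^ 2 =
      (u (k + 1) * x (k + 1) ^ 2) * u (m + 1) + u (k + 1) * (u (m + 1) * x (m + 1) ^ 2) -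
      2 * ((u (k + 1) * x (k + 1)) * (u (m + 1) * x (m + 1))) := by
    intro k m
    rw [sq_abs]; ring
  simp_rw [h2]
  simp_rw [Finset.sum_sub_distrib, Finset.sum_add_distrib, ← Finset.mul_sum, ← Finset.sum_mul]
  rw [← hS]
  change _ * HH u N + HH u N * _ - _ = _
  rw [h0]
  ring

lemma green_sum (hx : Monotone x) (N : ℕ) (h0 : HH u N = 0) :
    ∑ k ∈ range N, ∑ m ∈ range N, u (k + 1) * u (m + 1) * green (x (k + 1)) (x (m + 1)) =
      ∑ j ∈ range N, (x (j + 1) - x j) * HH u j ^ 2 -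
        (∑ j ∈ range N, (x (j + 1) - x j) * HH u j) ^ 2 := by
  have h1 := abs_sum x u hx N
  have h2 := sq_sum x u N h0
  have h3 : ∑ k ∈ range N, ∑ m ∈ range N, u (k + 1) * u (m + 1) = 0 := by
    simp_rw [← Finset.mul_sum]
    rw [← Finset.sum_mul]
    change HH u N * HH u N = 0
    rw [h0, zero_mul]
  have h4 : ∀ k m, u (k + 1) * u (m + 1) * green (x (k + 1)) (x (m + 1)) =
      (u (k + 1) * u (m + 1) * |x (k + 1) - x (m + 1)| ^ 2) * (1 / 2) -
      (u (k + 1) * u (m + 1) * |x (k + 1) - x (m + 1)|) * (1 / 2) +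
      (u (k + 1) * u (m + 1)) * (1 / 12) := by
    intro k m
    rw [green]; ring
  simp_rw [h4]
  simp_rw [Finset.sum_add_distrib, Finset.sum_sub_distrib, ← Finset.sum_mul]
  rw [h1, h2, h3, h0]
  have h5 : ∑ j ∈ range N, (x (j + 1) - x j) * HH u j * (0 - HH u j) =
      - ∑ j ∈ range N, (x (j + 1) - x j) * HH u j ^ 2 := by
    rw [← Finset.sum_neg_distrib]
    exact Finset.sum_congr rfl fun j _ => by ring
  rw [h5]
  ring

lemma green_sum_shift (hx : Monotone x) (N : ℕ) (h0 : HH u N = 0) (h1 : x N - x 0 = 1) (c : ℝ) :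
    ∑ k ∈ range N, ∑ m ∈ range N, u (k + 1) * u (m + 1) * green (x (k + 1)) (x (m + 1)) =
      ∑ j ∈ range N, (x (j + 1) - x j) * (HH u j - c) ^ 2 -
        (c - ∑ j ∈ range N, (x (j + 1) - x j) * HH u j) ^ 2 := by
  rw [green_sum x u hx N h0]
  have h2 : ∑ j ∈ range N, (x (j + 1) - x j) * (HH u j - c) ^ 2 =
      ∑ j ∈ range N, (x (j + 1) - x j) * HH u j ^ 2 -
      2 * c * ∑ j ∈ range N, (x (j + 1) - x j) * HH u j + c ^ 2 := by
    have h3 : ∑ j ∈ range N, (x (j + 1) - x j) = 1 := by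
      rw [Finset.sum_range_sub x, h1]
    rw [Finset.mul_sum]
    have h4 : c ^ 2 = ∑ j ∈ range N, (x (j + 1) - x j) * c ^ 2 := by
      rw [← Finset.sum_mul, h3, one_mul]
    rw [h4, ← Finset.sum_sub_distrib, ← Finset.sum_add_distrib]
    exact Finset.sum_congr rfl fun j _ => by ring
  rw [h2]
  ring

end general

end Pool.Agent.R221.Cyc
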