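import Mathlib

set_option autoImplicit false

open Finset

namespace Pool.Agent.R221.Cyc

/-- slopes of the sine from the origin decrease on `[0, π]` -/
lemma sin_slope {θ s : ℝ} (hθ : 0 ≤ θ) (hθs : θ ≤ s) (hs : 0 < s) (hsπ : s ≤ Real.pi) :
    Real.sin s / s * θ ≤ Real.sin θ := by
  have hc := strictConcaveOn_sin_Icc.concaveOn
  have h := hc.2 (show s ∈ Set.Icc 0 Real.pi from ⟨hs.le, hsπ⟩)
    (show (0 : ℝ) ∈ Set.Icc 0 Real.pi from ⟨le_rfl, Real.pi_pos.le⟩)
    (show 0 ≤ θ / s by positivity) (show 0 ≤ 1 - θ / s by rw [sub_nonneg, div_le_one hs]; exact hθs)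
    (by ring)
  simp only [smul_eq_mul, Real.sin_zero, mul_zero, add_zero] at h
  rw [div_mul_cancel₀ _ hs.ne'] at h
  calc Real.sin s / s * θ = θ / s * Real.sin s := by ring
    _ ≤ _ := h

lemma tangent_aux {s : ℝ} (hs : 0 < s) (hsπ : s ≤ Real.pi) {θ : ℝ} (hθ : 0 ≤ θ)
    (hθπ : θ ≤ Real.pi) :
    Real.cos s - Real.sin s / (2 * s) * (θ ^ 2 - s ^ 2) ≤ Real.cos θ := by
  set F : ℝ → ℝ := fun θ => Real.cos θ + Real.sin s / (2 * s) * θ ^ 2 with hF
  have hd : ∀ x, HasDerivAt F (-Real.sin x + Real.sin s / s * x) x := by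
    intro x
    have h1 := (Real.hasDerivAt_cos x).add ((hasDerivAt_pow 2 x).const_mul (Real.sin s / (2 * s)))
    refine h1.congr_deriv ?_
    have : s ≠ 0 := hs.ne'
    field_simp
    simp
    ring
  have hcont : Continuous F := by
    simp only [hF]; fun_prop
  have key : F s ≤ F θ := by
    rcases le_total θ s with h | h
    · have : AntitoneOn F (Set.Icc 0 s) := by
        refine antitoneOn_of_deriv_nonpos (convex_Icc 0 s) hcont.continuousOn
          (fun x _ => (hd x).differentiableAt.differentiableWithinAt) (fun x hx => ?_)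
        rw [interior_Icc] at hx
        rw [(hd x).deriv]
        have := sin_slope hx.1.le hx.2.le hs hsπ
        linarith
      exact this ⟨hθ, h⟩ ⟨hs.le, le_rfl⟩ h
    · have : MonotoneOn F (Set.Icc s Real.pi) := by
        refine monotoneOn_of_deriv_nonneg (convex_Icc s Real.pi) hcont.continuousOn
          (fun x _ => (hd x).differentiableAt.differentiableWithinAt) (fun x hx => ?_)
        rw [interior_Icc] at hx
        rw [(hd x).deriv]
        have hx0 : 0 < x := lt_trans hs hx.1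
        have h2 := sin_slope hs.le hx.1.le hx0 hx.2.le
        have h3 : Real.sin x ≤ Real.sin s / s * x := by
          rw [div_mul_eq_mul_div, le_div_iff₀ hs]
          rw [div_mul_eq_mul_div, div_le_iff₀ hx0] at h2
          exact h2
        linarith
      exact this ⟨le_rfl, hsπ⟩ ⟨h, hθπ⟩ h
  simp only [hF] at key
  have e : Real.sin s / (2 * s) * (θ ^ 2 - s ^ 2) =
    Real.sin s / (2 * s) * θ ^ 2 - Real.sin s / (2 * s) * s ^ 2 := by ring
  rw [e]
  linarith

lemma tangent {s : ℝ} (hs : 0 < s) (hsπ : s ≤ Real.pi) (θ : ℝ) :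
    Real.cos s - Real.sin s / (2 * s) * (θ ^ 2 - s ^ 2) ≤ Real.cos θ := by
  rw [← Real.cos_abs θ, ← sq_abs θ]
  have h0 := abs_nonneg θ
  rcases le_total |θ| Real.pi with h | h
  · exact tangent_aux hs hsπ h0 h
  · have h1 := tangent_aux hs hsπ Real.pi_pos.le le_rfl
    rw [Real.cos_pi] at h1
    have h2 := Real.neg_one_le_cos |θ|
    have h3 : 0 ≤ Real.sin s / (2 * s) :=
      div_nonneg (Real.sin_nonneg_of_nonneg_of_le_pi hs.le hsπ) (by positivity)
    have h4 : Real.pi ^ 2 ≤ |θ| ^ 2 := by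
      have := Real.pi_pos
      nlinarith
    have h5 : Real.sin s / (2 * s) * (Real.pi ^ 2 - s ^ 2) ≤
        Real.sin s / (2 * s) * (|θ| ^ 2 - s ^ 2) := by gcongr
    linarith

/-- Jensen: for `n` numbers `θ_j` whose quadratic mean is `s ≤ π`, `∑ cos θ_j ≥ n cos s`. -/
lemma jensen {ι : Type*} (S : Finset ι) (θ : ι → ℝ) {s : ℝ} (hs : 0 ≤ s) (hsπ : s ≤ Real.pi)
    (h : ∑ j ∈ S, θ j ^ 2 = S.card * s ^ 2) : S.card * Real.cos s ≤ ∑ j ∈ S, Real.cos (θ j) := by
  rcases hs.eq_or_lt with h0 | h0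
  · rw [← h0] at h ⊢
    have h1 : ∀ j ∈ S, θ j = 0 := by
      have : ∑ j ∈ S, θ j ^ 2 = 0 := by rw [h]; ring
      rw [Finset.sum_eq_zero_iff_of_nonneg (fun _ _ => sq_nonneg _)] at this
      exact fun j hj => pow_eq_zero_iff (two_ne_zero) |>.1 (this j hj)
    rw [Finset.sum_congr rfl fun j hj => by rw [h1 j hj]]
    simp
  · have h1 : ∑ j ∈ S, (Real.cos s - Real.sin s / (2 * s) * (θ j ^ 2 - s ^ 2)) ≤
        ∑ j ∈ S, Real.cos (θ j) := Finset.sum_le_sum fun j _ => tangent h0 hsπ (θ j)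
    rw [Finset.sum_sub_distrib, ← Finset.mul_sum, Finset.sum_sub_distrib, h, Finset.sum_const,
      Finset.sum_const, nsmul_eq_mul, nsmul_eq_mul] at h1
    linarith

/-- two families of the same size with `∑ cos = 0` -/
lemma two_families {ι : Type*} (S T : Finset ι) (θ : ι → ℝ) {n : ℕ} (hn : 0 < n) (hS : S.card = n)
    (hT : T.card = n) (h : ∑ j ∈ S, Real.cos (θ j) + ∑ j ∈ T, Real.cos (θ j) = 0) {s t : ℝ}
    (hs : 0 ≤ s) (ht : 0 ≤ t) (hs2 : ∑ j ∈ S, θ j ^ 2 = n * s ^ 2)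
    (ht2 : ∑ j ∈ T, θ j ^ 2 = n * t ^ 2) : Real.pi ≤ s + t := by
  by_contra hlt
  rw [not_le] at hlt
  have h1 := jensen S θ hs (by linarith) (by rw [hs2, hS])
  have h2 := jensen T θ ht (by linarith) (by rw [ht2, hT])
  rw [hS] at h1
  rw [hT] at h2
  have h3 : Real.cos (Real.pi - s) < Real.cos t :=
    Real.cos_lt_cos_of_nonneg_of_le_pi ht (by linarith) (by linarith)
  rw [Real.cos_pi_sub] at h3
  have h4 : (0 : ℝ) < n := by exact_mod_cast hn
  nlinarith

end Pool.Agent.R221.Cyc
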