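import Pool.Agent.R221.Cyc.Energy

set_option autoImplicit false

open Finset Filter Topology

namespace Pool.Agent.R221.Cyc

lemma sum_Icc_shift (N : ℕ) (F : ℕ → ℝ) :
    ∑ k ∈ Finset.Icc 1 N, F k = ∑ k ∈ range N, F (k + 1) := by
  induction N with
  | zero => simp
  | succ N ih => rw [Finset.sum_Icc_succ_top (by omega), ih, Finset.sum_range_succ]

lemma count_shift {N n : ℕ} {i : ℕ → Fin 3} {t : Fin 3}
    (h : ((Finset.Icc 1 N).filter fun k => i k = t).card = n) :
    ((range N).filter fun j => i (j + 1) = t).card = n := by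
  have h1 := sum_Icc_shift N (fun k => if i k = t then 1 else 0)
  rw [← Finset.sum_filter, ← Finset.sum_filter] at h1
  simp only [Finset.sum_const, nsmul_eq_mul, mul_one] at h1
  rw [h] at h1
  exact_mod_cast h1.symm

/-- rank one energy (times two) -/
noncomputable def E2 (n : ℕ) (ω v : Fin 3 → ℝ) (i : ℕ → Fin 3) : ℝ :=
  ∑ k ∈ range (3 * n), ∑ m ∈ range (3 * n), v (i (k + 1)) * v (i (m + 1)) *
    green (centre n ω i (k + 1)) (centre n ω i (m + 1))

section arr

variable {n : ℕ} {ω v : Fin 3 → ℝ} {i : ℕ → Fin 3}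

lemma centre_mono (hω : ∀ t, 0 < ω t) : Monotone (centre n ω i) := by
  refine monotone_nat_of_le_succ fun k => ?_
  have h1 := hω (i k)
  have h2 := hω (i (k + 1))
  have : 0 ≤ (ω (i k) + ω (i (k + 1))) / (2 * n) := by positivity
  simp only [centre]
  linarith

lemma sum_arr (hi : IsArrangement n i) (F : Fin 3 → ℝ) :
    ∑ j ∈ range (3 * n), F (i (j + 1)) = n * ∑ t, F t := by
  rw [sum_types (τ := fun j => i (j + 1)), Finset.mul_sum]
  refine Finset.sum_congr rfl fun t _ => ?_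
  have : ∀ j ∈ (range (3 * n)).filter (fun j => i (j + 1) = t), F (i (j + 1)) = F t := by
    intro j hj
    rw [(Finset.mem_filter.1 hj).2]
  rw [Finset.sum_congr rfl this, Finset.sum_const, count_shift (hi.2 t), nsmul_eq_mul]

lemma HH_end (hi : IsArrangement n i) (hv : ∑ t, v t = 0) :
    HH (fun k => v (i k)) (3 * n) = 0 := by
  rw [HH, sum_arr hi v, hv, mul_zero]

lemma gap_sum (hi : IsArrangement n i) (h : ℕ → ℝ) (hh : h (3 * n) = h 0) :
    ∑ j ∈ range (3 * n), (centre n ω i (j + 1) - centre n ω i j) * h j =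
      ∑ j ∈ range (3 * n), ω (i (j + 1)) / n * ((h j + h (j + 1)) / 2) := by
  have h1 : ∑ j ∈ range (3 * n), ω (i j) * h j = ∑ j ∈ range (3 * n), ω (i (j + 1)) * h (j + 1) := by
    have e1 := Finset.sum_range_succ (fun j => ω (i j) * h j) (3 * n)
    have e2 := Finset.sum_range_succ' (fun j => ω (i j) * h j) (3 * n)
    rw [e1] at e2
    have e3 : ω (i (3 * n)) * h (3 * n) = ω (i 0) * h 0 := by rw [hh, ← hi.1]
    linarith
  have h2 : ∀ j, (centre n ω i (j + 1) - centre n ω i j) * h j =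
      (1 / (2 * n)) * (ω (i j) * h j) + (1 / (2 * n)) * (ω (i (j + 1)) * h j) := by
    intro j
    simp only [centre]
    ring
  simp_rw [h2]
  rw [Finset.sum_add_distrib, ← Finset.mul_sum, h1, Finset.mul_sum, ← Finset.sum_add_distrib]
  exact Finset.sum_congr rfl fun j _ => by ring

lemma centre_end (hn : 0 < n) (hi : IsArrangement n i) (hω1 : ∑ t, ω t = 1) :
    centre n ω i (3 * n) - centre n ω i 0 = 1 := by
  have h1 := gap_sum (ω := ω) hi (fun _ => 1) rfl
  simp only [mul_one] at h1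
  rw [Finset.sum_range_sub (centre n ω i)] at h1
  rw [h1]
  have h2 : ∀ j, ω (i (j + 1)) / n * ((1 + 1) / 2) = ω (i (j + 1)) / (n : ℝ) := fun j => by ring
  simp_rw [h2]
  rw [sum_arr hi (fun t => ω t / n), ← Finset.sum_div, hω1]
  have : (n : ℝ) ≠ 0 := by positivity
  field_simp

lemma isPath (hi : IsArrangement n i) (hv : ∑ t, v t = 0) (c : ℝ) :
    IsPath n (3 * n) (fun j => i (j + 1)) v (fun j => HH (fun k => v (i k)) j - c) where
  step j _ := by
    change HH (fun k => v (i k)) (j + 1) - c = HH (fun k => v (i k)) j - c + v (i (j + 1))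
    rw [HH_succ]; ring
  closed := by
    change HH (fun k => v (i k)) (3 * n) - c = HH (fun k => v (i k)) 0 - c
    rw [HH_end hi hv]
    simp [HH]
  count t := count_shift (hi.2 t)

lemma weighted (hi : IsArrangement n i) (hv : ∑ t, v t = 0) (c : ℝ) :
    ∑ j ∈ range (3 * n), (centre n ω i (j + 1) - centre n ω i j) *
      (HH (fun k => v (i k)) j - c) ^ 2 =
    ∑ t, ω t / n * (MM (3 * n) (fun j => i (j + 1)) (fun j => HH (fun k => v (i k)) j - c) t +
      n * (v t ^ 2 / 4)) := by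
  have hp := isPath hi hv c
  have h0 := gap_sum (ω := ω) hi (fun j => (HH (fun k => v (i k)) j - c) ^ 2)
    (by simp only [hp.closed])
  rw [h0, sum_types (τ := fun j => i (j + 1))]
  refine Finset.sum_congr rfl fun t _ => ?_
  have h1 : ∀ j ∈ (range (3 * n)).filter (fun j => i (j + 1) = t),
      ω (i (j + 1)) / n * (((HH (fun k => v (i k)) j - c) ^ 2 +
        (HH (fun k => v (i k)) (j + 1) - c) ^ 2) / 2) =
      ω t / n * ((((HH (fun k => v (i k)) j - c) + (HH (fun k => v (i k)) (j + 1) - c)) / 2) ^ 2) +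
      ω t / n * (v t ^ 2 / 4) := by
    intro j hj
    rw [Finset.mem_filter] at hj
    simp only [HH_succ]
    rw [hj.2]
    ring
  rw [Finset.sum_congr rfl h1, Finset.sum_add_distrib, ← Finset.mul_sum, Finset.sum_const,
    count_shift (hi.2 t), nsmul_eq_mul, MM]
  ring

lemma E2_eq (hn : 0 < n) (hω : ∀ t, 0 < ω t) (hω1 : ∑ t, ω t = 1) (hi : IsArrangement n i)
    (hv : ∑ t, v t = 0) (c : ℝ) :
    E2 n ω v i = ∑ t, ω t / n *
      (MM (3 * n) (fun j => i (j + 1)) (fun j => HH (fun k => v (i k)) j - c) t +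
      n * (v t ^ 2 / 4)) -
      (c - ∑ j ∈ range (3 * n), (centre n ω i (j + 1) - centre n ω i j) *
        HH (fun k => v (i k)) j) ^ 2 := by
  rw [← weighted hi hv c]
  exact green_sum_shift (centre n ω i) (fun k => v (i k)) (centre_mono hω) (3 * n) (HH_end hi hv)
    (centre_end hn hi hω1) c

end arr

section cyc

lemma filter_sum_cyc (n : ℕ) (F : ℕ → ℝ) (t : Fin 3) :
    ∑ j ∈ (range (3 * n)).filter (fun j => cyclic (j + 1) = t), F j =
      ∑ q ∈ range n, F (3 * q + t) := by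
  have h0 : ∀ q, cyclic (3 * q + 1) = 0 := fun q => by
    simp only [cyclic]; apply Fin.ext; simp; omega
  have h1 : ∀ q, cyclic (3 * q + 1 + 1) = 1 := fun q => by
    simp only [cyclic]; apply Fin.ext; simp; omega
  have h2 : ∀ q, cyclic (3 * q + 1 + 1 + 1) = 2 := fun q => by
    simp only [cyclic]; apply Fin.ext; simp; omega
  rw [Finset.sum_filter]
  induction n with
  | zero => simp
  | succ n ih =>
    rw [show 3 * (n + 1) = 3 * n + 1 + 1 + 1 by ring, Finset.sum_range_succ, Finset.sum_range_succ,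
      Finset.sum_range_succ, ih, Finset.sum_range_succ, h0, h1, h2]
    fin_cases t <;> simp

lemma cyclic_arr (n : ℕ) : IsArrangement n cyclic := by
  constructor
  · simp only [cyclic]; apply Fin.ext; simp
  · intro t
    have h1 := sum_Icc_shift (3 * n) (fun k => if cyclic k = t then 1 else 0)
    have h2 := filter_sum_cyc n (fun _ => 1) t
    rw [← Finset.sum_filter, ← Finset.sum_filter, h2] at h1
    simp only [Finset.sum_const, nsmul_eq_mul, mul_one, Finset.card_range] at h1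
    exact_mod_cast h1

variable {v : Fin 3 → ℝ}

lemma HH_cyc (hv : ∑ t, v t = 0) (q : ℕ) :
    HH (fun k => v (cyclic k)) (3 * q) = 0 ∧ HH (fun k => v (cyclic k)) (3 * q + 1) = v 0 ∧
    HH (fun k => v (cyclic k)) (3 * q + 1 + 1) = v 0 + v 1 ∧
    HH (fun k => v (cyclic k)) (3 * q + 1 + 1 + 1) = 0 := by
  have h0 : ∀ q, cyclic (3 * q + 1) = 0 := fun q => by
    simp only [cyclic]; apply Fin.ext; simp; omega
  have h1 : ∀ q, cyclic (3 * q + 1 + 1) = 1 := fun q => by
    simp only [cyclic]; apply Fin.ext; simp; omega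
  have h2 : ∀ q, cyclic (3 * q + 1 + 1 + 1) = 2 := fun q => by
    simp only [cyclic]; apply Fin.ext; simp; omega
  rw [Fin.sum_univ_three] at hv
  have h3 : HH (fun k => v (cyclic k)) (3 * q) = 0 := HH_end (cyclic_arr q)
    (by rw [Fin.sum_univ_three]; exact hv)
  refine ⟨h3, ?_, ?_, ?_⟩
  · rw [HH_succ, h3, h0]; ring
  · rw [HH_succ, HH_succ, h3, h0, h1]; ring
  · rw [HH_succ, HH_succ, HH_succ, h3, h0, h1, h2]; linarith

lemma MM_cyc (hv : ∑ t, v t = 0) (n : ℕ) (c : ℝ) :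
    MM (3 * n) (fun j => cyclic (j + 1)) (fun j => HH (fun k => v (cyclic k)) j - c) 0 =
      n * (v 0 / 2 - c) ^ 2 ∧
    MM (3 * n) (fun j => cyclic (j + 1)) (fun j => HH (fun k => v (cyclic k)) j - c) 1 =
      n * (v 0 + v 1 / 2 - c) ^ 2 ∧
    MM (3 * n) (fun j => cyclic (j + 1)) (fun j => HH (fun k => v (cyclic k)) j - c) 2 =
      n * (-(v 2) / 2 - c) ^ 2 := by
  have hv' := hv
  rw [Fin.sum_univ_three] at hv'
  refine ⟨?_, ?_, ?_⟩
  · rw [MM, filter_sum_cyc]
    have : ∀ q ∈ range n, (((HH (fun k => v (cyclic k)) (3 * q + ((0 : Fin 3) : ℕ)) - c) +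
        (HH (fun k => v (cyclic k)) (3 * q + ((0 : Fin 3) : ℕ) + 1) - c)) / 2) ^ 2 =
        (v 0 / 2 - c) ^ 2 := by
      intro q _
      have h := HH_cyc hv q
      have e : (3 * q + ((0 : Fin 3) : ℕ)) = 3 * q := rfl
      rw [e, h.1, h.2.1]; ring
    rw [Finset.sum_congr rfl this, Finset.sum_const, Finset.card_range, nsmul_eq_mul]
  · rw [MM, filter_sum_cyc]
    have : ∀ q ∈ range n, (((HH (fun k => v (cyclic k)) (3 * q + ((1 : Fin 3) : ℕ)) - c) +
        (HH (fun k => v (cyclic k)) (3 * q + ((1 : Fin 3) : ℕ) + 1) - c)) / 2) ^ 2 =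
        (v 0 + v 1 / 2 - c) ^ 2 := by
      intro q _
      have h := HH_cyc hv q
      have e : (3 * q + ((1 : Fin 3) : ℕ)) = 3 * q + 1 := rfl
      rw [e, h.2.1, h.2.2.1]; ring
    rw [Finset.sum_congr rfl this, Finset.sum_const, Finset.card_range, nsmul_eq_mul]
  · rw [MM, filter_sum_cyc]
    have : ∀ q ∈ range n, (((HH (fun k => v (cyclic k)) (3 * q + ((2 : Fin 3) : ℕ)) - c) +
        (HH (fun k => v (cyclic k)) (3 * q + ((2 : Fin 3) : ℕ) + 1) - c)) / 2) ^ 2 =
        (-(v 2) / 2 - c) ^ 2 := by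
      intro q _
      have h := HH_cyc hv q
      have e : (3 * q + ((2 : Fin 3) : ℕ)) = 3 * q + 1 + 1 := rfl
      rw [e, h.2.2.1, h.2.2.2]
      have : v 0 + v 1 = - v 2 := by linarith
      rw [this]; ring
    rw [Finset.sum_congr rfl this, Finset.sum_const, Finset.card_range, nsmul_eq_mul]

end cyc

section path

variable {n N : ℕ} {τ : ℕ → Fin 3} {v : Fin 3 → ℝ} {h : ℕ → ℝ}

lemma path_pos (hp : IsPath n N τ v h) (hn : 0 < n) (hv : v 0 + v 1 + v 2 = 0)
    (hpos : (0 < v 0 ∧ 0 < v 1) ∨ (0 < v 1 ∧ 0 < v 2) ∨ (0 < v 2 ∧ 0 < v 0)) :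
    ∃ c : ℝ, n * (v 0 / 2 - c) ^ 2 ≤ MM N τ h 0 ∧ n * (v 0 + v 1 / 2 - c) ^ 2 ≤ MM N τ h 1 ∧
      n * (-(v 2) / 2 - c) ^ 2 ≤ MM N τ h 2 := by
  rcases hpos with h1 | h1 | h1
  · obtain ⟨x, hA, hB, hC⟩ := path_main hp hn 0 1 2 (fun F => Fin.sum_univ_three F) h1.1 h1.2
      (by linarith)
    refine ⟨-(v 2) / 2 - x, ?_, ?_, ?_⟩
    · convert hA using 3; linarith
    · convert hB using 3; linarith
    · convert hC using 3; ring
  · obtain ⟨x, hA, hB, hC⟩ := path_main hp hn 1 2 0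
      (fun F => by rw [Fin.sum_univ_three F]; ring) h1.1 h1.2 (by linarith)
    refine ⟨v 0 / 2 - x, ?_, ?_, ?_⟩
    · convert hC using 3; ring
    · convert hA using 3; linarith
    · convert hB using 3; linarith
  · obtain ⟨x, hA, hB, hC⟩ := path_main hp hn 2 0 1
      (fun F => by rw [Fin.sum_univ_three F]; ring) h1.1 h1.2 (by linarith)
    refine ⟨v 0 + v 1 / 2 - x, ?_, ?_, ?_⟩
    · convert hB using 3; linarith
    · convert hC using 3; ring
    · convert hA using 3; linarith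

lemma path_any (hp : IsPath n N τ v h) (hn : 0 < n) (hv : v 0 + v 1 + v 2 = 0)
    (hne : ∀ t, v t ≠ 0) :
    ∃ c : ℝ, n * (v 0 / 2 - c) ^ 2 ≤ MM N τ h 0 ∧ n * (v 0 + v 1 / 2 - c) ^ 2 ≤ MM N τ h 1 ∧
      n * (-(v 2) / 2 - c) ^ 2 ≤ MM N τ h 2 := by
  have hneg : ((0 < -(v 0) ∧ 0 < -(v 1)) ∨ (0 < -(v 1) ∧ 0 < -(v 2)) ∨ (0 < -(v 2) ∧ 0 < -(v 0))) →
      ∃ c : ℝ, n * (v 0 / 2 - c) ^ 2 ≤ MM N τ h 0 ∧ n * (v 0 + v 1 / 2 - c) ^ 2 ≤ MM N τ h 1 ∧
      n * (-(v 2) / 2 - c) ^ 2 ≤ MM N τ h 2 := by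
    intro hcase
    have hp' : IsPath n N τ (fun t => -(v t)) (fun j => -(h j)) :=
      { step := fun j hj => by rw [hp.step j hj]; ring
        closed := by rw [hp.closed]
        count := hp.count }
    have hM : ∀ t, MM N τ (fun j => -(h j)) t = MM N τ h t := by
      intro t
      exact Finset.sum_congr rfl fun j _ => by ring
    obtain ⟨c, h0, h1, h2⟩ := path_pos hp' hn (by linarith) hcase
    rw [hM] at h0 h1 h2
    refine ⟨-c, ?_, ?_, ?_⟩
    · convert h0 using 2; ring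
    · convert h1 using 2; ring
    · convert h2 using 2; ring
  rcases lt_or_gt_of_ne (hne 0) with h0 | h0 <;> rcases lt_or_gt_of_ne (hne 1) with h1 | h1 <;>
    rcases lt_or_gt_of_ne (hne 2) with h2 | h2
  · exact hneg (Or.inl ⟨by linarith, by linarith⟩)
  · exact hneg (Or.inl ⟨by linarith, by linarith⟩)
  · exact hneg (Or.inr (Or.inr ⟨by linarith, by linarith⟩))
  · exact path_pos hp hn hv (Or.inr (Or.inl ⟨h1, h2⟩))
  · exact hneg (Or.inr (Or.inl ⟨by linarith, by linarith⟩))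
  · exact path_pos hp hn hv (Or.inr (Or.inr ⟨h2, h0⟩))
  · exact path_pos hp hn hv (Or.inl ⟨h0, h1⟩)
  · exact path_pos hp hn hv (Or.inl ⟨h0, h1⟩)

end path

variable {n : ℕ} {ω v : Fin 3 → ℝ} {i : ℕ → Fin 3}

lemma E2_le_of_ne (hn : 0 < n) (hω : ∀ t, 0 < ω t) (hω1 : ∑ t, ω t = 1) (hi : IsArrangement n i)
    (hv : ∑ t, v t = 0) (hne : ∀ t, v t ≠ 0) : E2 n ω v cyclic ≤ E2 n ω v i := by
  have hv' := hv
  rw [Fin.sum_univ_three] at hv'
  set c := ∑ j ∈ range (3 * n), (centre n ω i (j + 1) - centre n ω i j) *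
        HH (fun k => v (i k)) j with hc
  have h1 := E2_eq hn hω hω1 hi hv c
  rw [← hc, sub_self] at h1
  obtain ⟨c', h0', h1', h2'⟩ := path_any (isPath hi hv c) hn hv' hne
  have h2 := E2_eq hn hω hω1 (cyclic_arr n) hv c'
  obtain ⟨e0, e1, e2⟩ := MM_cyc hv n c'
  rw [h1, h2, Fin.sum_univ_three, Fin.sum_univ_three, e0, e1, e2]
  have w : ∀ t, 0 ≤ ω t / n := fun t => div_nonneg (hω t).le (by positivity)
  have i0 := mul_le_mul_of_nonneg_left h0' (w 0)
  have i1 := mul_le_mul_of_nonneg_left h1' (w 1)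
  have i2 := mul_le_mul_of_nonneg_left h2' (w 2)
  have i3 := sq_nonneg (c' - ∑ j ∈ range (3 * n),
    (centre n ω cyclic (j + 1) - centre n ω cyclic j) * HH (fun k => v (cyclic k)) j)
  rw [mul_add, mul_add, mul_add, mul_add, mul_add, mul_add]
  linarith

lemma E2_le (hn : 0 < n) (hω : ∀ t, 0 < ω t) (hω1 : ∑ t, ω t = 1) (hi : IsArrangement n i)
    (hv : ∑ t, v t = 0) : E2 n ω v cyclic ≤ E2 n ω v i := by
  set w : Fin 3 → ℝ := ![1, 2, -3] with hw
  set V : ℝ → Fin 3 → ℝ := fun ε t => v t + ε * w t with hV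
  have hcont : ∀ i : ℕ → Fin 3, Tendsto (fun ε => E2 n ω (V ε) i) (𝓝[>] 0) (𝓝 (E2 n ω v i)) := by
    intro i
    have h1 : Continuous fun ε => E2 n ω (V ε) i := by
      unfold E2
      simp only [hV]
      fun_prop
    have h2 := (h1.tendsto 0).mono_left (nhdsWithin_le_nhds (s := Set.Ioi 0))
    have h3 : V 0 = v := by
      funext t
      simp [hV]
    rw [h3] at h2
    exact h2
  refine le_of_tendsto_of_tendsto (hcont cyclic) (hcont i) ?_
  have hne : ∀ t, ∀ᶠ ε : ℝ in 𝓝[>] 0, V ε t ≠ 0 := by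
    intro t
    have hwt : w t ≠ 0 := by fin_cases t <;> simp [hw]
    have h1 : ∀ᶠ ε : ℝ in 𝓝[≠] 0, V ε t ≠ 0 := by
      by_cases h0 : v t = 0
      · filter_upwards [self_mem_nhdsWithin] with ε hε
        simp only [hV, h0, zero_add]
        exact mul_ne_zero hε hwt
      · have hc : ContinuousAt (fun ε => V ε t) 0 := by
          simp only [hV]; fun_prop
        have : V 0 t ≠ 0 := by simpa [hV] using h0
        exact (hc.eventually_ne this).filter_mono nhdsWithin_le_nhds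
    exact h1.filter_mono (nhdsWithin_mono _ fun x hx => ne_of_gt hx)
  filter_upwards [hne 0, hne 1, hne 2] with ε h0 h1 h2
  refine E2_le_of_ne hn hω hω1 hi ?_ ?_
  · rw [Fin.sum_univ_three] at hv ⊢
    simp [hV, hw]
    linarith
  · intro t
    fin_cases t
    · exact h0
    · exact h1
    · exact h2

/-- decomposition of an admissible matrix -/
lemma decomp {f : Matrix (Fin 3) (Fin 3) ℝ} (hf : IsAdmissible f) :
    ∃ v w : Fin 3 → ℝ, ∑ t, v t = 0 ∧ ∑ t, w t = 0 ∧ ∀ s t, f s t = v s * v t + w s * w t := by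
  obtain ⟨hpsd, hrow⟩ := hf
  have hsymm : ∀ s t, f s t = f t s := fun s t => by
    have := hpsd.isHermitian.apply t s
    simpa using this
  have hr : ∀ s, f s 0 + f s 1 + f s 2 = 0 := fun s => by
    have := congrFun hrow s
    simpa [Matrix.mulVec, dotProduct, Fin.sum_univ_three] using this
  have hq : ∀ z0 z1 : ℝ, 0 ≤ f 0 0 * z0 ^ 2 + 2 * f 0 1 * z0 * z1 + f 1 1 * z1 ^ 2 := by
    intro z0 z1
    have := hpsd.dotProduct_mulVec_nonneg ![z0, z1, 0]
    simp [Matrix.mulVec, dotProduct, Fin.sum_univ_three] at this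
    rw [hsymm 1 0] at this
    linarith
  set A := f 0 0 with hA
  set B := f 0 1 with hB
  set C := f 1 1 with hC
  have hA0 : 0 ≤ A := by have := hq 1 0; simpa using this
  have hC0 : 0 ≤ C := by have := hq 0 1; simpa using this
  have hdisc : B ^ 2 ≤ A * C := by
    rcases hA0.eq_or_lt with h | h
    · have h1 : B = 0 := by
        by_contra hB0
        have h2 := hq (-(C + 1) / (2 * B)) 1
        have h3 : 2 * B * (-(C + 1) / (2 * B)) = -(C + 1) := by field_simp
        rw [h3, ← h] at h2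
        linarith
      rw [h1, ← h]; simp
    · have h2 := hq (-B) A
      have h3 : A * (B ^ 2) ≤ A * (A * C) := by nlinarith
      exact le_of_mul_le_mul_left h3 h
  have hBA : A = 0 → B = 0 := by
    intro h
    rw [h, zero_mul] at hdisc
    exact pow_eq_zero_iff (two_ne_zero) |>.1 (le_antisymm hdisc (sq_nonneg B))
  have hsA : Real.sqrt A * Real.sqrt A = A := Real.mul_self_sqrt hA0
  have e1 : Real.sqrt A * (B / Real.sqrt A) = B := by
    rcases eq_or_ne A 0 with h | h
    · rw [hBA h]; simp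
    · have : Real.sqrt A ≠ 0 := by
        rw [Ne, Real.sqrt_eq_zero hA0]; exact h
      field_simp
  have hrem : 0 ≤ C - (B / Real.sqrt A) ^ 2 := by
    rw [div_pow, Real.sq_sqrt hA0]
    rcases hA0.eq_or_lt with h | h
    · rw [← h]; simpa using hC0
    · rw [sub_nonneg, div_le_iff₀ h]; linarith
  set r := Real.sqrt (C - (B / Real.sqrt A) ^ 2) with hr'
  have er : r * r = C - (B / Real.sqrt A) ^ 2 := Real.mul_self_sqrt hrem
  set p := Real.sqrt A with hp
  set q := B / p with hq'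
  refine ⟨![p, q, -(p + q)], ![0, r, -r], ?_, ?_, ?_⟩
  · simp [Fin.sum_univ_three]
  · simp [Fin.sum_univ_three]
  · have f00 : f 0 0 = p * p := by rw [hsA]
    have f01 : f 0 1 = p * q := by rw [e1]
    have f10 : f 1 0 = p * q := by rw [hsymm 1 0, e1]
    have f11 : f 1 1 = q * q + r * r := by rw [er, ← hC]; ring
    have f02 : f 0 2 = -(p * p) - p * q := by have := hr 0; linarith
    have f20 : f 2 0 = -(p * p) - p * q := by rw [hsymm 2 0]; exact f02
    have f12 : f 1 2 = -(p * q) - (q * q + r * r) := by have := hr 1; linarith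
    have f21 : f 2 1 = -(p * q) - (q * q + r * r) := by rw [hsymm 2 1]; exact f12
    have f22 : f 2 2 = p * p + 2 * (p * q) + (q * q + r * r) := by have := hr 2; linarith
    intro s t
    fin_cases s <;> fin_cases t
    · simpa using f00
    · simpa using f01
    · simp; rw [f02]; ring
    · simp; rw [f10]; ring
    · simpa using f11
    · simp; rw [f12]; ring
    · simp; rw [f20]; ring
    · simp; rw [f21]; ring
    · simp; rw [f22]; ring

lemma energy_eq (n : ℕ) (ω : Fin 3 → ℝ) {f : Matrix (Fin 3) (Fin 3) ℝ} {v w : Fin 3 → ℝ}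
    (hf : ∀ s t, f s t = v s * v t + w s * w t) (i : ℕ → Fin 3) :
    energy n ω f i = (1 / 2) * (E2 n ω v i + E2 n ω w i) := by
  unfold energy E2
  rw [sum_Icc_shift]
  congr 1
  rw [← Finset.sum_add_distrib]
  refine Finset.sum_congr rfl fun k _ => ?_
  rw [sum_Icc_shift, ← Finset.sum_add_distrib]
  refine Finset.sum_congr rfl fun m _ => ?_
  rw [hf]
  ring

/-- the cyclic arrangement minimizes the energy -/
theorem cyclic_min (hn : 0 < n) (hω : ∀ t, 0 < ω t) (hω1 : ∑ t, ω t = 1)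
    {f : Matrix (Fin 3) (Fin 3) ℝ} (hf : IsAdmissible f) (hi : IsArrangement n i) :
    energy n ω f cyclic ≤ energy n ω f i := by
  obtain ⟨v, w, hv, hw, hvw⟩ := decomp hf
  rw [energy_eq n ω hvw, energy_eq n ω hvw]
  have h1 := E2_le hn hω hω1 hi hv
  have h2 := E2_le hn hω hω1 hi hw
  linarith

end Pool.Agent.R221.Cyc
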