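import Pool.Agent.R221.Cyc.Jensen

set_option autoImplicit false

open Finset

namespace Pool.Agent.R221.Cyc

/-- A closed path with steps `v (τ j)`, each type occurring `n` times. -/
structure IsPath (n N : ℕ) (τ : ℕ → Fin 3) (v : Fin 3 → ℝ) (h : ℕ → ℝ) : Prop where
  step : ∀ j < N, h (j + 1) = h j + v (τ j)
  closed : h N = h 0
  count : ∀ t, ((range N).filter fun j => τ j = t).card = n

/-- sum of the squared midpoints of the steps of type `t` -/
noncomputable def MM (N : ℕ) (τ : ℕ → Fin 3) (h : ℕ → ℝ) (t : Fin 3) : ℝ :=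
  ∑ j ∈ (range N).filter (fun j => τ j = t), ((h j + h (j + 1)) / 2) ^ 2

lemma MM_nonneg (N : ℕ) (τ : ℕ → Fin 3) (h : ℕ → ℝ) (t : Fin 3) : 0 ≤ MM N τ h t :=
  Finset.sum_nonneg fun _ _ => sq_nonneg _

variable {n N : ℕ} {τ : ℕ → Fin 3} {v : Fin 3 → ℝ} {h : ℕ → ℝ}

lemma sum_types (F : ℕ → ℝ) :
    ∑ j ∈ range N, F j = ∑ t : Fin 3, ∑ j ∈ (range N).filter (fun j => τ j = t), F j :=
  (Finset.sum_fiberwise _ _ _).symm

/-- telescoping along the path, sorted by types -/
lemma telescope (hp : IsPath n N τ v h) (φ : ℝ → ℝ) :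
    ∑ t : Fin 3, ∑ j ∈ (range N).filter (fun j => τ j = t),
      (φ ((h j + h (j + 1)) / 2 + v t / 2) - φ ((h j + h (j + 1)) / 2 - v t / 2)) = 0 := by
  have h1 : ∑ j ∈ range N, (φ (h (j + 1)) - φ (h j)) = 0 := by
    rw [Finset.sum_range_sub (fun j => φ (h j)), hp.closed, sub_self]
  rw [sum_types (τ := τ)] at h1
  rw [← h1]
  refine Finset.sum_congr rfl fun t _ => Finset.sum_congr rfl fun j hj => ?_
  rw [Finset.mem_filter, Finset.mem_range] at hj
  have h2 := hp.step j hj.1
  rw [hj.2] at h2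
  rw [h2]
  congr 2 <;> ring

lemma path_main (hp : IsPath n N τ v h) (hn : 0 < n) (A B C : Fin 3)
    (hABC : ∀ F : Fin 3 → ℝ, ∑ t, F t = F A + F B + F C) (hA : 0 < v A) (hB : 0 < v B)
    (hC : v C = -(v A + v B)) :
    ∃ x : ℝ, n * (x - v B / 2) ^ 2 ≤ MM N τ h A ∧ n * (x + v A / 2) ^ 2 ≤ MM N τ h B ∧
      n * x ^ 2 ≤ MM N τ h C := by
  set a := v A with ha
  set b := v B with hb
  set L := a + b with hL
  have hLpos : 0 < L := by positivity
  have hn0 : (0 : ℝ) < n := by exact_mod_cast hn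
  -- second moment identity
  have hrel : a * MM N τ h A + b * MM N τ h B = L * MM N τ h C + n * (a * b * L / 4) := by
    have h1 := telescope hp (fun y => y ^ 3)
    have h2 : ∀ t : Fin 3, ∑ j ∈ (range N).filter (fun j => τ j = t),
        ((fun y : ℝ => y ^ 3) ((h j + h (j + 1)) / 2 + v t / 2) -
          (fun y : ℝ => y ^ 3) ((h j + h (j + 1)) / 2 - v t / 2)) =
        3 * v t * MM N τ h t + n * (v t ^ 3 / 4) := by
      intro t
      have h3 : ∀ j, ((fun y : ℝ => y ^ 3) ((h j + h (j + 1)) / 2 + v t / 2) -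
          (fun y : ℝ => y ^ 3) ((h j + h (j + 1)) / 2 - v t / 2)) =
          3 * v t * (((h j + h (j + 1)) / 2) ^ 2) + v t ^ 3 / 4 := by
        intro j; simp only; ring
      rw [Finset.sum_congr rfl fun j _ => h3 j, Finset.sum_add_distrib, ← Finset.mul_sum,
        Finset.sum_const, hp.count t, nsmul_eq_mul, MM]
    rw [Finset.sum_congr rfl fun t _ => h2 t, hABC] at h1
    rw [hC, ← ha, ← hb] at h1
    rw [hL]
    linear_combination h1 / 3
  -- the cosine identity
  have hcos : ∑ j ∈ (range N).filter (fun j => τ j = A),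
        Real.cos (2 * Real.pi / L * ((h j + h (j + 1)) / 2)) +
      ∑ j ∈ (range N).filter (fun j => τ j = B),
        Real.cos (2 * Real.pi / L * ((h j + h (j + 1)) / 2)) = 0 := by
    have h1 := telescope hp (fun y => Real.sin (2 * Real.pi / L * y))
    have h2 : ∀ t : Fin 3, ∑ j ∈ (range N).filter (fun j => τ j = t),
        ((fun y : ℝ => Real.sin (2 * Real.pi / L * y)) ((h j + h (j + 1)) / 2 + v t / 2) -
          (fun y : ℝ => Real.sin (2 * Real.pi / L * y)) ((h j + h (j + 1)) / 2 - v t / 2)) =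
        2 * Real.sin (Real.pi / L * v t) * ∑ j ∈ (range N).filter (fun j => τ j = t),
          Real.cos (2 * Real.pi / L * ((h j + h (j + 1)) / 2)) := by
      intro t
      rw [Finset.mul_sum]
      refine Finset.sum_congr rfl fun j _ => ?_
      simp only
      have e1 : 2 * Real.pi / L * ((h j + h (j + 1)) / 2 + v t / 2) =
        2 * Real.pi / L * ((h j + h (j + 1)) / 2) + Real.pi / L * v t := by ring
      have e2 : 2 * Real.pi / L * ((h j + h (j + 1)) / 2 - v t / 2) =
        2 * Real.pi / L * ((h j + h (j + 1)) / 2) - Real.pi / L * v t := by ring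
      rw [e1, e2, Real.sin_add, Real.sin_sub]
      ring
    rw [Finset.sum_congr rfl fun t _ => h2 t, hABC] at h1
    have hsC : Real.sin (Real.pi / L * v C) = 0 := by
      rw [hC]
      have : Real.pi / L * -L = -Real.pi := by field_simp
      rw [this, Real.sin_neg, Real.sin_pi, neg_zero]
    have hsB : Real.sin (Real.pi / L * b) = Real.sin (Real.pi / L * a) := by
      have : Real.pi / L * b = Real.pi - Real.pi / L * a := by
        rw [hL]; field_simp; ring
      rw [this, Real.sin_pi_sub]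
    have hsA : 0 < Real.sin (Real.pi / L * a) := by
      apply Real.sin_pos_of_pos_of_lt_pi
      · have := Real.pi_pos; positivity
      · rw [div_mul_eq_mul_div, div_lt_iff₀ hLpos]
        have := Real.pi_pos
        nlinarith
    rw [← ha, ← hb, hsC, hsB] at h1
    have h3 : 2 * Real.sin (Real.pi / L * a) * (∑ j ∈ (range N).filter (fun j => τ j = A),
        Real.cos (2 * Real.pi / L * ((h j + h (j + 1)) / 2)) +
      ∑ j ∈ (range N).filter (fun j => τ j = B),
        Real.cos (2 * Real.pi / L * ((h j + h (j + 1)) / 2))) = 0 := by linarith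
    rcases mul_eq_zero.1 h3 with h4 | h4
    · linarith
    · exact h4
  -- lower bound on the sum of the quadratic means
  set α := Real.sqrt (MM N τ h A / n) with hα
  set β := Real.sqrt (MM N τ h B / n) with hβ
  have hα0 : 0 ≤ α := Real.sqrt_nonneg _
  have hβ0 : 0 ≤ β := Real.sqrt_nonneg _
  have hα2 : n * α ^ 2 = MM N τ h A := by
    rw [hα, Real.sq_sqrt (div_nonneg (MM_nonneg _ _ _ _) hn0.le)]
    field_simp
  have hβ2 : n * β ^ 2 = MM N τ h B := by
    rw [hβ, Real.sq_sqrt (div_nonneg (MM_nonneg _ _ _ _) hn0.le)]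
    field_simp
  have hsum : L / 2 ≤ α + β := by
    have hk : 0 < 2 * Real.pi / L := by have := Real.pi_pos; positivity
    have hq : ∀ t : Fin 3, ∀ r : ℝ, n * r ^ 2 = MM N τ h t →
        ∑ j ∈ (range N).filter (fun j => τ j = t),
        (2 * Real.pi / L * ((h j + h (j + 1)) / 2)) ^ 2 = n * (2 * Real.pi / L * r) ^ 2 := by
      intro t r hr
      have : n * (2 * Real.pi / L * r) ^ 2 = (2 * Real.pi / L) ^ 2 * (n * r ^ 2) := by ring
      rw [this, hr, MM, Finset.mul_sum]
      exact Finset.sum_congr rfl fun j _ => by ring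
    have h1 := two_families _ _ (fun j => 2 * Real.pi / L * ((h j + h (j + 1)) / 2)) hn
      (hp.count A) (hp.count B) hcos (s := 2 * Real.pi / L * α) (t := 2 * Real.pi / L * β)
      (by positivity) (by positivity) (hq A α hα2) (hq B β hβ2)
    have h2 : 2 * Real.pi / L * α + 2 * Real.pi / L * β = Real.pi * ((α + β) * 2 / L) := by ring
    rw [h2] at h1
    have h3 : 1 ≤ (α + β) * 2 / L := by
      have := Real.pi_pos
      by_contra hlt
      rw [not_le] at hlt
      nlinarith
    rw [le_div_iff₀ hLpos] at h3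
    linarith
  -- choice of x
  have hx : ∃ x : ℝ, (x - b / 2) ^ 2 ≤ α ^ 2 ∧ (x + a / 2) ^ 2 ≤ β ^ 2 := by
    rcases le_total α (L / 2) with h1 | h1
    · refine ⟨b / 2 - α, ?_, ?_⟩
      · apply le_of_eq; ring
      · have e : b / 2 - α + a / 2 = L / 2 - α := by rw [hL]; ring
        rw [e]
        apply pow_le_pow_left₀ <;> linarith
    · refine ⟨-(a / 2), ?_, ?_⟩
      · have e : (-(a / 2) - b / 2) ^ 2 = (L / 2) ^ 2 := by rw [hL]; ring
        rw [e]
        apply pow_le_pow_left₀ <;> linarith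
      · have e : (-(a / 2) + a / 2) ^ 2 = 0 := by ring
        rw [e]; positivity
  obtain ⟨x, hx1, hx2⟩ := hx
  have hx1' : n * (x - b / 2) ^ 2 ≤ MM N τ h A := by rw [← hα2]; gcongr
  have hx2' : n * (x + a / 2) ^ 2 ≤ MM N τ h B := by rw [← hβ2]; gcongr
  refine ⟨x, hx1', hx2', ?_⟩
  have h1 : L * (n * x ^ 2) ≤ L * MM N τ h C := by
    have h2 := mul_le_mul_of_nonneg_left hx1' hA.le
    have h3 := mul_le_mul_of_nonneg_left hx2' hB.le
    have h4 : a * (n * (x - b / 2) ^ 2) + b * (n * (x + a / 2) ^ 2) =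
      L * (n * x ^ 2) + n * (a * b * L / 4) := by rw [hL]; ring
    linarith
  exact le_of_mul_le_mul_left h1 hLpos

end Pool.Agent.R221.Cyc
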